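import Pool.Agent.Run7.h78.Baer

set_option autoImplicit false

namespace Pool.Agent.Results.MP_b58d28_al.AdjointNil

/-- Let `I` be a nil two-sided ideal of a ring `A` and let `G` be the group of all units of `A`
congruent to `1` modulo `I` (the adjoint group of the nil ring `I`).  If `G` satisfies the
normalizer condition, then every two-sided ideal `K < I` lies strictly below a two-sided ideal
`M ≤ I` with `M² ⊆ K`, and `G` is hyperabelian. -/
theorem result :
    ∀ (A : Type*) [Ring A] (I : Ideal A),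
      (∀ k ∈ I, ∀ s : A, k * s ∈ I) →
      (∀ x ∈ I, IsNilpotent x) →
      ∀ G : Subgroup Aˣ, (∀ u : Aˣ, u ∈ G ↔ (u : A) - 1 ∈ I) →
      NormalizerCondition G →
      (∀ K : Ideal A, (∀ k ∈ K, ∀ s : A, k * s ∈ K) → K < I →
        ∃ M : Ideal A, (∀ k ∈ M, ∀ s : A, k * s ∈ M) ∧ K < M ∧ M ≤ I ∧
          ∀ m ∈ M, ∀ m' ∈ M, m * m' ∈ K) ∧
      (∀ N : Subgroup G, N.Normal → N ≠ ⊤ →
        ∃ B : Subgroup G, B.Normal ∧ N < B ∧ ∀ x ∈ B, ∀ y ∈ B, x * y * x⁻¹ * y⁻¹ ∈ N) := by
  intro A _ I hI hnil G hG hN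
  have hGadj : G = Run7.h78.adj I := by
    ext u
    rw [hG, Run7.h78.mem_adj]
  subst hGadj
  refine ⟨?_, ?_⟩
  · intro K hK hKI
    exact Run7.h78.exists_square_zero_layer I K hI hK hnil hN hKI
  · intro N hNn hne
    exact Run7.h78.hyperabelian_adj I hI hnil hN N hNn hne

end Pool.Agent.Results.MP_b58d28_al.AdjointNil
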