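import Pool.Agent.Run7.h78.Hyper2

set_option autoImplicit false

namespace Pool.Agent.Results.MP_b58d28_al.DoubleCentralizers

/-- `SmallDoubleCentralizer G`: some element `x ≠ 1` of `G` has a small double centralizer
`D = C(C(x))`, in one of two senses: either `D` has finite rank, i.e. there is a finite set `S ⊆ D`
such that each element of `D` has a positive power in the subgroup generated by `S`; or there is no
infinite sequence `v₀, v₁, …` of nontrivial elements of `D` with `C(v₀) < C(v₁) < …`. -/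
def SmallDoubleCentralizer (G : Type*) [Group G] : Prop :=
  ∃ x : G, x ≠ 1 ∧
    ((∃ S : Finset G,
        (∀ s ∈ S, s ∈ Subgroup.centralizer (Subgroup.centralizer {x} : Set G)) ∧
        ∀ z ∈ Subgroup.centralizer (Subgroup.centralizer {x} : Set G),
          ∃ n : ℕ, 0 < n ∧ z ^ n ∈ Subgroup.closure (S : Set G)) ∨
      (¬ ∃ v : ℕ → G, ∀ n, v n ≠ 1 ∧
        v n ∈ Subgroup.centralizer (Subgroup.centralizer {x} : Set G) ∧
        Subgroup.centralizer {v n} < Subgroup.centralizer {v (n + 1)}))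

theorem exists_central {G : Type*} [Group G] (htf : ∀ g : G, g ≠ 1 → ¬ IsOfFinOrder g)
    (hN : NormalizerCondition G) (h : SmallDoubleCentralizer G) :
    ∃ z : G, z ≠ 1 ∧ ∀ g : G, Commute g z := by
  obtain ⟨x, hx, ⟨S, hS, hfin⟩ | hacc⟩ := h
  · exact Run7.h78.exists_central_of_finiteRank hN htf ⟨x, hx, S, hS, hfin⟩
  · refine Run7.h78.exists_central_of_acc hN x hx ?_
    rintro ⟨v, hv1, hvx, hvm, hvs⟩
    refine hacc ⟨v, fun n => ⟨hv1 n, Run7.h78.mem_dc.2 (hvx n), ?_⟩⟩
    refine lt_of_le_of_ne ?_ ?_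
    · intro c hc
      exact Subgroup.mem_centralizer_singleton_iff.2
        (hvm n c (Subgroup.mem_centralizer_singleton_iff.1 hc)).eq
    · intro heq
      obtain ⟨c, hc1, hc2⟩ := hvs n
      apply hc2
      have h1 : c ∈ Subgroup.centralizer {v (n + 1)} :=
        Subgroup.mem_centralizer_singleton_iff.2 hc1.eq
      rw [← heq] at h1
      exact Subgroup.mem_centralizer_singleton_iff.1 h1

theorem quotient_torsionFree {G : Type*} [Group G] (K : Subgroup G) [K.Normal]
    (hKi : ∀ (g : G) (n : ℕ), 0 < n → g ^ n ∈ K → g ∈ K) (g : G ⧸ K) (hg : g ≠ 1) :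
    ¬ IsOfFinOrder g := by
  intro hfin
  obtain ⟨g, rfl⟩ := QuotientGroup.mk'_surjective K g
  obtain ⟨n, hn, h⟩ := isOfFinOrder_iff_pow_eq_one.1 hfin
  apply hg
  rw [← map_pow] at h
  exact (QuotientGroup.eq_one_iff g).2 (hKi g n hn ((QuotientGroup.eq_one_iff _).1 h))

/-- Let `G` be a torsion-free group with the normalizer condition.
(1) If `G` has a nontrivial element with a small double centralizer, then `G` has a nontrivial
centre.
(2) If every nontrivial torsion-free quotient of `G` has a nontrivial element with a small double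
centralizer, then `G` is hypercentral.
(3) If every nontrivial torsion-free quotient `Q` of `G` has a normal subgroup `J` containing a
nontrivial element whose double centralizer in `J` is small, then `G` is hyperabelian. -/
theorem result :
    ∀ (G : Type*) [Group G],
      (∀ g : G, g ≠ 1 → ¬ IsOfFinOrder g) →
      NormalizerCondition G →
      (SmallDoubleCentralizer G → ∃ z : G, z ≠ 1 ∧ ∀ g : G, g * z = z * g) ∧
      ((∀ (K : Subgroup G) [K.Normal], K ≠ ⊤ →
          (∀ (g : G) (n : ℕ), 0 < n → g ^ n ∈ K → g ∈ K) → SmallDoubleCentralizer (G ⧸ K)) →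
        ∀ N : Subgroup G, N.Normal → N ≠ ⊤ →
          ∃ z : G, z ∉ N ∧ ∀ g : G, g * z * g⁻¹ * z⁻¹ ∈ N) ∧
      ((∀ (K : Subgroup G) [K.Normal], K ≠ ⊤ →
          (∀ (g : G) (n : ℕ), 0 < n → g ^ n ∈ K → g ∈ K) →
          ∃ J : Subgroup (G ⧸ K), J.Normal ∧ SmallDoubleCentralizer J) →
        ∀ N : Subgroup G, N.Normal → N ≠ ⊤ →
          ∃ A : Subgroup G, A.Normal ∧ N < A ∧
            ∀ x ∈ A, ∀ y ∈ A, x * y * x⁻¹ * y⁻¹ ∈ N) := by
  intro G _ htf hN
  refine ⟨fun h => ?_, fun hq => ?_, fun hq => ?_⟩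
  · obtain ⟨z, hz, hc⟩ := exists_central htf hN h
    exact ⟨z, hz, fun g => (hc g).eq⟩
  · exact Run7.h78.hypercentral_of_quotients hN htf fun K hK hKt hKi =>
      exists_central (quotient_torsionFree K hKi) (Run7.h78.normalizerCondition_quot hN K)
        (hq K hKt hKi)
  · refine Run7.h78.hyperabelian_of_quotients hN htf fun K hK hKt hKi => ?_
    obtain ⟨J, hJ, hsm⟩ := hq K hKt hKi
    obtain ⟨z, hz, hc⟩ := exists_central (G := J)
      (fun g hg hfin => quotient_torsionFree K hKi (g : G ⧸ K)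
        (fun h => hg (Subtype.ext h)) ((Submonoid.isOfFinOrder_coe (H := J.toSubmonoid)).2 hfin))
      (Run7.h78.normalizerCondition_subgroup (Run7.h78.normalizerCondition_quot hN K) J) hsm
    exact ⟨J, hJ, z, z.2, fun h => hz (Subtype.ext h), fun g hg =>
      congrArg Subtype.val (hc ⟨g, hg⟩).eq⟩

end Pool.Agent.Results.MP_b58d28_al.DoubleCentralizers
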